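import Pool.Agent.Y957.VK.Step3

/-!
# Orbits along the times `[a n^θ]`, for almost every `a`

Let `Y` be a locally compact second countable Hausdorff space (for example `G / Γ`), `μ` a probability
measure on `Y`, and let `y 1, y 2, …` (for example `y m = u(m) x`) be equidistributed with respect to
`μ`.  For every `θ > 0` and almost every `a > 0` the sequence `y [a n^θ]`, `n = 1, 2, …`, is
equidistributed with respect to `μ`.
-/

set_option autoImplicit false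

namespace Pool.Agent.Results.MP_4ace04_an.AlmostEveryMultiple

open Filter Topology MeasureTheory BoundedContinuousFunction

/-- `z 1, z 2, …` is equidistributed with respect to `μ` -/
def Equidistributed {Y : Type} [TopologicalSpace Y] [MeasurableSpace Y] (μ : Measure Y) (z : ℕ → Y) : Prop :=
  ∀ f : Y → ℂ, Continuous f → HasCompactSupport f →
    Tendsto (fun N : ℕ => (1 / (N : ℂ)) * ∑ n ∈ Finset.Icc 1 N, f (z n)) atTop (𝓝 (∫ x, f x ∂μ))

theorem equi_of_dense {Y : Type} [TopologicalSpace Y] [T2Space Y] [LocallyCompactSpace Y]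
    [SecondCountableTopology Y] [MeasurableSpace Y] [BorelSpace Y] (μ : Measure Y) [IsProbabilityMeasure μ]
    (z : ℕ → Y) (D : Set (Y →ᵇ ℂ)) (hSD : {f : Y →ᵇ ℂ | HasCompactSupport f} ⊆ closure D)
    (hD : ∀ g ∈ D, Tendsto (fun N : ℕ => (1 / (N : ℂ)) * ∑ n ∈ Finset.Icc 1 N, g (z n)) atTop
      (𝓝 (∫ x, g x ∂μ))) : Equidistributed μ z := by
  intro f hf hfs
  obtain ⟨C, hC⟩ := hfs.exists_bound_of_continuous hf
  obtain ⟨F, hF⟩ : ∃ F : Y →ᵇ ℂ, F = BoundedContinuousFunction.ofNormedAddCommGroup f hf C hC := ⟨_, rfl⟩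
  have hFf : ∀ x, F x = f x := fun x => by rw [hF]; rfl
  have hFS : F ∈ {f : Y →ᵇ ℂ | HasCompactSupport f} := by
    have : (F : Y → ℂ) = f := funext hFf
    change HasCompactSupport (F : Y → ℂ)
    rw [this]
    exact hfs
  rw [Metric.tendsto_atTop]
  intro ε hε
  obtain ⟨g, hg, hfg⟩ := Metric.mem_closure_iff.1 (hSD hFS) (ε / 4) (by positivity)
  rw [dist_eq_norm] at hfg
  obtain ⟨N0, hN0⟩ := (Metric.tendsto_atTop.1 (hD g hg)) (ε / 4) (by positivity)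
  refine ⟨max N0 1, fun N hN => ?_⟩
  have h2 := hN0 N ((le_max_left _ _).trans hN)
  have hN1 : (0 : ℝ) < N := by exact_mod_cast (le_max_right _ _).trans hN
  rw [dist_eq_norm] at h2 ⊢
  have h3 : ∀ x, ‖f x - g x‖ ≤ ε / 4 := fun x => by
    have h4 : ‖(F - g) x‖ ≤ ‖F - g‖ := (F - g).norm_coe_le_norm x
    rw [BoundedContinuousFunction.coe_sub, Pi.sub_apply, hFf] at h4
    exact h4.trans hfg.le
  have hfi : Integrable f μ := by
    have : (F : Y → ℂ) = f := funext hFf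
    rw [← this]
    exact F.integrable μ
  have e1 : (1 / (N : ℂ)) * ∑ n ∈ Finset.Icc 1 N, f (z n) - ∫ x, f x ∂μ =
      ((1 / (N : ℂ)) * ∑ n ∈ Finset.Icc 1 N, g (z n) - ∫ x, g x ∂μ) +
        ((1 / (N : ℂ)) * ∑ n ∈ Finset.Icc 1 N, (f (z n) - g (z n)) - ∫ x, (f x - g x) ∂μ) := by
    rw [integral_sub hfi (g.integrable μ), Finset.sum_sub_distrib]
    ring
  have h5 : ‖(1 / (N : ℂ)) * ∑ n ∈ Finset.Icc 1 N, (f (z n) - g (z n))‖ ≤ ε / 4 := by
    rw [norm_mul, norm_div, norm_one, Complex.norm_natCast]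
    have h6 : ‖∑ n ∈ Finset.Icc 1 N, (f (z n) - g (z n))‖ ≤ N * (ε / 4) := by
      refine (norm_sum_le _ _).trans ((Finset.sum_le_sum fun n _ => h3 _).trans ?_)
      simp
    calc 1 / (N : ℝ) * ‖∑ n ∈ Finset.Icc 1 N, (f (z n) - g (z n))‖ ≤ 1 / (N : ℝ) * (N * (ε / 4)) := by gcongr
      _ = ε / 4 := by field_simp
  have h6 : ‖∫ x, (f x - g x) ∂μ‖ ≤ ε / 4 := by
    have := norm_integral_le_of_norm_le_const (μ := μ) (f := fun x => f x - g x) (ae_of_all _ h3)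
    simpa using this
  rw [e1]
  have h7 := norm_add_le ((1 / (N : ℂ)) * ∑ n ∈ Finset.Icc 1 N, g (z n) - ∫ x, g x ∂μ)
    ((1 / (N : ℂ)) * ∑ n ∈ Finset.Icc 1 N, (f (z n) - g (z n)) - ∫ x, (f x - g x) ∂μ)
  have h8 := norm_sub_le ((1 / (N : ℂ)) * ∑ n ∈ Finset.Icc 1 N, (f (z n) - g (z n)))
    (∫ x, (f x - g x) ∂μ)
  linarith

/-- almost every multiple, one bounded sequence -/
theorem powers (θ : ℝ) (hθ : 0 < θ) (b : ℕ → ℂ) (C : ℝ) (hb : ∀ n, ‖b n‖ ≤ C) (L : ℂ)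
    (hL : Tendsto (fun M : ℕ => (1 / (M : ℂ)) * ∑ m ∈ Finset.Icc 1 M, b m) atTop (𝓝 L)) :
    ∀ᵐ a : ℝ, 0 < a → Tendsto (fun N : ℕ => (1 / (N : ℂ)) * ∑ n ∈ Finset.Icc 1 N, b ⌊a * (n : ℝ) ^ θ⌋₊)
      atTop (𝓝 L) := by
  have hC : 0 ≤ C := (norm_nonneg _).trans (hb 0)
  obtain ⟨D, hD⟩ : ∃ D : ℝ, D = C + 1 := ⟨_, rfl⟩
  have hD0 : 0 < D := by linarith
  have hDc : (D : ℂ) ≠ 0 := by exact_mod_cast hD0.ne'
  have hc1 : ∀ n, ‖(1 / (D : ℂ)) * b n‖ ≤ 1 := fun n => by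
    rw [norm_mul, norm_div, norm_one, Complex.norm_real, Real.norm_eq_abs, abs_of_pos hD0]
    have := hb n
    rw [one_div, inv_mul_le_iff₀ hD0]
    linarith
  have hL1 : Tendsto (fun M : ℕ => (1 / (M : ℂ)) * ∑ m ∈ Finset.range M, (1 / (D : ℂ)) * b m) atTop
      (𝓝 ((1 / (D : ℂ)) * L)) := by
    refine Pool.Agent.Y957.St.avg_range _ hc1 _ ?_
    refine (hL.const_mul (1 / (D : ℂ))).congr fun N => ?_
    rw [← Finset.mul_sum]
    ring
  have hA := Pool.Agent.Y571.MC.pow θ hθ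
  have hm : Measurable fun x : ℝ => x ^ θ := measurable_id.pow_const θ
  have h1 := Pool.Agent.Y957.MC.detg_all _ hA hm (Pool.Agent.Y957.St.sf fun n => (1 / (D : ℂ)) * b n)
    (Pool.Agent.Y957.St.sf_meas _) (fun v => hc1 _) (fun Λ hΛ => Pool.Agent.Y957.St.sf_mod _ hc1 Λ hΛ)
  rw [ae_restrict_iff' measurableSet_Ioi] at h1
  filter_upwards [h1] with a ha ha0
  have h2 := (ha ha0).add (Pool.Agent.Y957.St.cont_avg _ hA hm _ hc1 _ hL1 a ha0)
  rw [zero_add] at h2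
  have h3 := h2.const_mul (D : ℂ)
  rw [← mul_assoc, mul_one_div_cancel hDc, one_mul] at h3
  refine h3.congr fun N => ?_
  simp only [Pool.Agent.Y957.St.sf]
  rw [← Finset.mul_sum]
  field_simp
  ring

/-- Sampling along `[a n^θ]` for almost every `a` -/
theorem result {Y : Type} [TopologicalSpace Y] [T2Space Y] [LocallyCompactSpace Y]
    [SecondCountableTopology Y] [MeasurableSpace Y] [BorelSpace Y] (μ : Measure Y) [IsProbabilityMeasure μ]
    (y : ℕ → Y) (hy : Equidistributed μ y) (θ : ℝ) (hθ : 0 < θ) :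
    ∀ᵐ a : ℝ, 0 < a → Equidistributed μ fun n : ℕ => y ⌊a * (n : ℝ) ^ θ⌋₊ := by
  obtain ⟨D, hDS, hDc, hSD⟩ :
      ∃ D ⊆ {f : Y →ᵇ ℂ | HasCompactSupport f}, D.Countable ∧ {f : Y →ᵇ ℂ | HasCompactSupport f} ⊆ closure D := by
    obtain ⟨D, hDS, hD, hSD⟩ := (Pool.Agent.Y957.VK.sep_cs Y).exists_countable_dense_subset
    exact ⟨D, hDS, hD, hSD⟩
  have h1 : ∀ᵐ a : ℝ, ∀ g ∈ D, 0 < a → Tendsto (fun N : ℕ => (1 / (N : ℂ)) *
      ∑ n ∈ Finset.Icc 1 N, g (y ⌊a * (n : ℝ) ^ θ⌋₊)) atTop (𝓝 (∫ x, g x ∂μ)) := by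
    rw [ae_ball_iff hDc]
    exact fun g hg => powers θ hθ (fun m => g (y m)) ‖g‖ (fun m => g.norm_coe_le_norm _) _
      (hy g g.continuous (hDS hg))
  filter_upwards [h1] with a ha ha0
  exact equi_of_dense μ _ D hSD fun g hg => ha g hg ha0

end Pool.Agent.Results.MP_4ace04_an.AlmostEveryMultiple
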